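import Pool.Agent.Y377.IL.Stm

/-!
Job IL-TOR: the ring generated by a fundamental matrix and its inverse over a differential field
is differentially simple.
-/

set_option autoImplicit false

namespace Pool.Agent.Y77.IL

open Pool.Agent.Y377.EL Pool.Agent.Y377.IL MvPolynomial

/-- an ideal of a Noetherian ring which is stable under an automorphism -/
theorem comap_le {R : Type} [CommRing R] [IsNoetherianRing R] (P : Ideal R) (ρ ρ' : R →+* R)
    (h : ∀ x, ρ (ρ' x) = x) (hP : P ≤ P.comap ρ) : P.comap ρ ≤ P := by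
  let a : ℕ → Ideal R := fun k => Nat.rec P (fun _ J => J.comap ρ) k
  have ha0 : a 0 = P := rfl
  have has : ∀ k, a (k + 1) = (a k).comap ρ := fun k => rfl
  have hmono : ∀ k, a k ≤ a (k + 1) := by
    intro k
    induction k with
    | zero => exact hP
    | succ k ih =>
      rw [has k, has (k + 1)]
      exact Ideal.comap_mono ih
  obtain ⟨k, hk⟩ := monotone_stabilizes_iff_noetherian.2 (inferInstance : IsNoetherian R R)
    ⟨a, monotone_nat_of_le_succ hmono⟩
  have hk1 : a k = a (k + 1) := hk (k + 1) (Nat.le_succ k)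
  have key : ∀ k, a (k + 1) ≤ a k → a 1 ≤ a 0 := by
    intro k
    induction k with
    | zero => exact fun h => h
    | succ k ih =>
      intro h1
      apply ih
      intro x hx
      have hx1 : ρ (ρ' x) ∈ a (k + 1) := by rw [h]; exact hx
      have hx2 : ρ' x ∈ a (k + 1 + 1) := hx1
      have hx3 : ρ' x ∈ a (k + 1) := h1 hx2
      have hx4 : ρ (ρ' x) ∈ a k := hx3
      rwa [h] at hx4
  exact key k hk1.ge

variable {K : Type} [Field K] [Algebra ℂ K]

theorem noeth (L : Subalgebra ℂ K) (hL : ∀ x ∈ L, x⁻¹ ∈ L) : IsNoetherianRing L := by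
  have h1 : IsField L :=
    { exists_pair_ne := ⟨0, 1, zero_ne_one⟩
      mul_comm := mul_comm
      mul_inv_cancel := fun {a} ha => ⟨⟨(a : K)⁻¹, hL _ a.2⟩, Subtype.ext (by
        have : (a : K) ≠ 0 := fun h => ha (Subtype.ext h)
        exact mul_inv_cancel₀ this)⟩ }
  have h2 : IsPrincipalIdealRing L := h1.isPrincipalIdealRing
  infer_instance

theorem D_inv {D : Derivation ℂ K K} {R : Subalgebra ℂ K} {n : ℕ}
    {X Y M : Matrix (Fin n) (Fin n) K} (hF : Fund D R X Y M) (i j : Fin n) :
    D (Y i j) = -∑ k, Y i k * M k j := by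
  classical
  have hYX : Y * X = 1 := mul_eq_one_comm.1 hF.inv
  set DY : Matrix (Fin n) (Fin n) K := fun i j => D (Y i j) with hDY
  have h1 : M * X * Y + X * DY = 0 := by
    ext i j
    have h2 : D ((X * Y) i j) = 0 := by
      rw [hF.inv, Matrix.one_apply]
      split_ifs
      · exact D.map_one_eq_zero
      · exact map_zero D
    rw [Matrix.mul_apply, map_sum] at h2
    rw [Matrix.add_apply, Matrix.mul_apply, Matrix.mul_apply, ← Finset.sum_add_distrib,
      Matrix.zero_apply, ← h2]
    refine Finset.sum_congr rfl fun k _ => ?_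
    rw [D.leibniz, hF.eq, Matrix.mul_apply]
    simp only [smul_eq_mul, hDY]
    ring
  have h3 : DY = -(Y * M) := by
    have h4 : Y * (M * X * Y + X * DY) = 0 := by rw [h1, mul_zero]
    rw [mul_add, ← mul_assoc Y X DY, hYX, one_mul, mul_assoc M X Y, hF.inv, mul_one] at h4
    exact eq_neg_of_add_eq_zero_right h4
  have h5 := congrFun (congrFun h3 i) j
  rw [Matrix.neg_apply, Matrix.mul_apply] at h5
  exact h5

theorem mem_mat {L : Subalgebra ℂ K} {n : ℕ} {X Y : Matrix (Fin n) (Fin n) K}
    (q : MvPolynomial (Sg n) L) : aeval (pt X Y) q ∈ mat L X Y := by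
  induction q using MvPolynomial.induction_on with
  | C a =>
    rw [aeval_C]
    exact (le_sup_left : L ≤ mat L X Y) a.2
  | add p q hp hq =>
    rw [map_add]
    exact (mat L X Y).add_mem hp hq
  | mul_X p s hp =>
    rw [map_mul, aeval_X]
    refine (mat L X Y).mul_mem hp ?_
    apply (le_sup_right : Algebra.adjoin ℂ {x | ∃ i j, x = X i j ∨ x = Y i j} ≤ mat L X Y)
    apply Algebra.subset_adjoin
    rcases s with ⟨i, j⟩ | ⟨i, j⟩
    · exact ⟨i, j, Or.inl rfl⟩
    · exact ⟨i, j, Or.inr rfl⟩

theorem exists_of_mem_mat {L : Subalgebra ℂ K} {n : ℕ} {X Y : Matrix (Fin n) (Fin n) K} {x : K}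
    (hx : x ∈ mat L X Y) : ∃ q : MvPolynomial (Sg n) L, aeval (pt X Y) q = x := by
  have h1 : mat L X Y ≤
      ((aeval (pt X Y) : MvPolynomial (Sg n) L →ₐ[L] K).range).restrictScalars ℂ := by
    refine sup_le ?_ (Algebra.adjoin_le ?_)
    · intro l hl
      exact ⟨C ⟨l, hl⟩, aeval_C _ _⟩
    · rintro x ⟨i, j, rfl | rfl⟩
      · exact ⟨MvPolynomial.X (Sum.inl (i, j)), aeval_X _ _⟩
      · exact ⟨MvPolynomial.X (Sum.inr (i, j)), aeval_X _ _⟩
  exact h1 hx

/-- the substitution by right multiplication with a constant matrix -/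
noncomputable def sb {A : Type} [CommRing A] {n : ℕ} (g u : Matrix (Fin n) (Fin n) A) :
    Sg n → MvPolynomial (Sg n) A :=
  Sum.elim
    (fun p => ∑ k, MvPolynomial.X (Sum.inl (p.1, k)) * C (g k p.2))
    (fun p => ∑ k, C (u p.1 k) * MvPolynomial.X (Sum.inr (k, p.2)))

theorem sb_sb {A : Type} [CommRing A] {n : ℕ} (g u : Matrix (Fin n) (Fin n) A) (h : g * u = 1)
    (q : MvPolynomial (Sg n) A) : aeval (sb g u) (aeval (sb u g) q) = q := by
  classical
  have h0 : ∀ i j, ∑ k, g i k * u k j = if i = j then 1 else 0 := by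
    intro i j
    rw [← Matrix.mul_apply, h, Matrix.one_apply]
  have h1 : (aeval (sb g u) : MvPolynomial (Sg n) A →ₐ[A] MvPolynomial (Sg n) A).comp
      (aeval (sb u g)) = AlgHom.id A _ := by
    apply MvPolynomial.algHom_ext
    rintro (⟨i, j⟩ | ⟨i, j⟩)
    · rw [AlgHom.comp_apply, aeval_X, AlgHom.id_apply]
      simp only [sb, Sum.elim_inl, map_sum, map_mul, aeval_X, aeval_C,
        MvPolynomial.algebraMap_eq]
      simp only [Finset.sum_mul]
      rw [Finset.sum_comm]
      have : ∀ l, ∑ k, MvPolynomial.X (Sum.inl (i, l)) * C (g l k) * C (u k j) =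
          (MvPolynomial.X (Sum.inl (i, l)) : MvPolynomial (Sg n) A) *
            C (if l = j then 1 else 0) := by
        intro l
        rw [← h0 l j, map_sum, Finset.mul_sum]
        refine Finset.sum_congr rfl fun k _ => ?_
        rw [map_mul, mul_assoc]
      simp only [this]
      rw [Finset.sum_eq_single j]
      · rw [if_pos rfl, C_1, mul_one]
      · intro b _ hb
        rw [if_neg hb, C_0, mul_zero]
      · intro hj
        exact absurd (Finset.mem_univ j) hj
    · rw [AlgHom.comp_apply, aeval_X, AlgHom.id_apply]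
      simp only [sb, Sum.elim_inr, map_sum, map_mul, aeval_X, aeval_C,
        MvPolynomial.algebraMap_eq]
      simp only [Finset.mul_sum]
      rw [Finset.sum_comm]
      have : ∀ l, ∑ k, C (g i k) * (C (u k l) * MvPolynomial.X (Sum.inr (l, j))) =
          C (if i = l then 1 else 0) *
            (MvPolynomial.X (Sum.inr (l, j)) : MvPolynomial (Sg n) A) := by
        intro l
        rw [← h0 i l, map_sum, Finset.sum_mul]
        refine Finset.sum_congr rfl fun k _ => ?_
        rw [map_mul, mul_assoc]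
      simp only [this]
      rw [Finset.sum_eq_single i]
      · rw [if_pos rfl, C_1, one_mul]
      · intro b _ hb
        rw [if_neg (Ne.symm hb), C_0, zero_mul]
      · intro hj
        exact absurd (Finset.mem_univ i) hj
  have h2 := congrArg (fun f : MvPolynomial (Sg n) A →ₐ[A] MvPolynomial (Sg n) A => f q) h1
  exact h2

/-- the derivation of the polynomial ring attached to a linear system -/
noncomputable def vv {L : Subalgebra ℂ K} {n : ℕ} (M : Matrix (Fin n) (Fin n) L) :
    Sg n → MvPolynomial (Sg n) L :=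
  Sum.elim
    (fun p => ∑ k, C (M p.1 k) * MvPolynomial.X (Sum.inl (k, p.2)))
    (fun p => -∑ k, MvPolynomial.X (Sum.inr (p.1, k)) * C (M k p.2))

theorem pi_der {D : Derivation ℂ K K} {L : Subalgebra ℂ K} (hst : Stab D L) {n : ℕ}
    {X Y M : Matrix (Fin n) (Fin n) K} (hF : Fund D L X Y M)
    (e : Derivation ℂ (MvPolynomial (Sg n) L) (MvPolynomial (Sg n) L))
    (he1 : ∀ a, e (C a) = C (dres D L hst a))
    (he2 : ∀ s, e (MvPolynomial.X s) = vv (fun i j => ⟨M i j, hF.mem i j⟩) s)
    (q : MvPolynomial (Sg n) L) : aeval (pt X Y) (e q) = D (aeval (pt X Y) q) := by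
  induction q using MvPolynomial.induction_on with
  | C a =>
    rw [he1, aeval_C, aeval_C]
    exact dres_coe D L hst a
  | add p q hp hq => rw [map_add, map_add, map_add, map_add, hp, hq]
  | mul_X p s hp =>
    have h1 : aeval (pt X Y) (vv (fun i j => (⟨M i j, hF.mem i j⟩ : L)) s) = D (pt X Y s) := by
      rcases s with ⟨i, j⟩ | ⟨i, j⟩
      · simp only [vv, pt, Sum.elim_inl, map_sum, map_mul, aeval_X, aeval_C]
        rw [hF.eq]
        rfl
      · simp only [vv, pt, Sum.elim_inr, map_neg, map_sum, map_mul, aeval_X, aeval_C]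
        rw [D_inv hF]
        rfl
    rw [e.leibniz, map_mul, D.leibniz, map_add, he2, smul_eq_mul, smul_eq_mul, map_mul, map_mul,
      h1, hp, aeval_X, smul_eq_mul, smul_eq_mul]

theorem psi_der {D : Derivation ℂ K K} {L : Subalgebra ℂ K} (hst : Stab D L) {n : ℕ}
    {X Y M : Matrix (Fin n) (Fin n) K} (hF : Fund D L X Y M)
    (e : Derivation ℂ (MvPolynomial (Sg n) L) (MvPolynomial (Sg n) L))
    (he1 : ∀ a, e (C a) = C (dres D L hst a))
    (he2 : ∀ s, e (MvPolynomial.X s) = vv (fun i j => ⟨M i j, hF.mem i j⟩) s)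
    (e' : Derivation ℂ (MvPolynomial (Sg n) K) (MvPolynomial (Sg n) K))
    (he1' : ∀ a, e' (C a) = C (D a)) (he2' : ∀ s, e' (MvPolynomial.X s) = 0)
    (q : MvPolynomial (Sg n) L) :
    (aeval (subs X Y) (e q) : MvPolynomial (Sg n) K) = e' (aeval (subs X Y) q) := by
  have hC : ∀ a : L, (algebraMap L (MvPolynomial (Sg n) K)) a = C (a : K) := fun a => rfl
  induction q using MvPolynomial.induction_on with
  | C a =>
    rw [he1, aeval_C, aeval_C, hC, hC, he1']
    rfl
  | add p q hp hq => rw [map_add, map_add, map_add, map_add, hp, hq]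
  | mul_X p s hp =>
    have h1 : (aeval (subs X Y) (vv (fun i j => (⟨M i j, hF.mem i j⟩ : L)) s) :
        MvPolynomial (Sg n) K) = e' (subs X Y s) := by
      rcases s with ⟨i, j⟩ | ⟨i, j⟩
      · have h2 : ∀ k, e' (C (X i k) * MvPolynomial.X (Sum.inl (k, j))) =
            ∑ l, C (M i l) * (C (X l k) * MvPolynomial.X (Sum.inl (k, j))) := by
          intro k
          rw [e'.leibniz, he1', he2', hF.eq, smul_zero, zero_add, smul_eq_mul, map_sum,
            Finset.mul_sum]
          refine Finset.sum_congr rfl fun l _ => ?_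
          rw [map_mul]
          ring
        have h3 : (aeval (subs X Y) (vv (fun i j => (⟨M i j, hF.mem i j⟩ : L)) (Sum.inl (i, j))) :
            MvPolynomial (Sg n) K) =
              ∑ l, ∑ k, C (M i l) * (C (X l k) * MvPolynomial.X (Sum.inl (k, j))) := by
          simp only [vv, subs, Sum.elim_inl, map_sum, map_mul, aeval_X, aeval_C, hC,
            Finset.mul_sum]
        have h4 : e' (subs X Y (Sum.inl (i, j))) =
            ∑ k, e' (C (X i k) * MvPolynomial.X (Sum.inl (k, j))) := by
          simp only [subs, Sum.elim_inl, map_sum]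
        rw [h3, h4, Finset.sum_comm]
        exact Finset.sum_congr rfl fun k _ => (h2 k).symm
      · have h2 : ∀ k, e' (MvPolynomial.X (Sum.inr (i, k)) * C (Y k j)) =
            -∑ l, MvPolynomial.X (Sum.inr (i, k)) * C (Y k l) * C (M l j) := by
          intro k
          rw [e'.leibniz, he1', he2', D_inv hF, smul_zero, add_zero, smul_eq_mul, map_neg, map_sum,
            mul_neg, Finset.mul_sum, neg_inj]
          refine Finset.sum_congr rfl fun l _ => ?_
          rw [map_mul]
          ring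
        have h3 : (aeval (subs X Y) (vv (fun i j => (⟨M i j, hF.mem i j⟩ : L)) (Sum.inr (i, j))) :
            MvPolynomial (Sg n) K) =
              -∑ l, ∑ k, MvPolynomial.X (Sum.inr (i, k)) * C (Y k l) * C (M l j) := by
          simp only [vv, subs, Sum.elim_inr, map_neg, map_sum, map_mul, aeval_X, aeval_C, hC,
            Finset.sum_mul]
        have h4 : e' (subs X Y (Sum.inr (i, j))) =
            ∑ k, e' (MvPolynomial.X (Sum.inr (i, k)) * C (Y k j)) := by
          simp only [subs, Sum.elim_inr, map_sum]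
        rw [h3, h4, Finset.sum_comm, ← Finset.sum_neg_distrib]
        exact Finset.sum_congr rfl fun k _ => (h2 k).symm
    rw [e.leibniz, map_mul, e'.leibniz, map_add, he2, smul_eq_mul, smul_eq_mul, map_mul, map_mul,
      h1, hp, aeval_X, smul_eq_mul, smul_eq_mul]

/-- the first half of a point as a matrix -/
noncomputable def gm (A : Type) [CommRing A] [Algebra ℂ A] {n : ℕ} (v : Sg n → ℂ) :
    Matrix (Fin n) (Fin n) A := fun i j => algebraMap ℂ A (v (Sum.inl (i, j)))

/-- the second half of a point as a matrix -/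
noncomputable def um (A : Type) [CommRing A] [Algebra ℂ A] {n : ℕ} (v : Sg n → ℂ) :
    Matrix (Fin n) (Fin n) A := fun i j => algebraMap ℂ A (v (Sum.inr (i, j)))

theorem psi_val {L : Subalgebra ℂ K} {n : ℕ} (X Y : Matrix (Fin n) (Fin n) K) (v : Sg n → ℂ)
    (q : MvPolynomial (Sg n) L) :
    aeval (fun s => algebraMap ℂ K (v s)) (aeval (subs X Y) q : MvPolynomial (Sg n) K) =
      aeval (pt (X * gm K v) (um K v * Y)) q := by
  have h1 : ((aeval (fun s => algebraMap ℂ K (v s)) :
      MvPolynomial (Sg n) K →ₐ[K] K).restrictScalars L).comp (aeval (subs X Y)) =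
      aeval (pt (X * gm K v) (um K v * Y)) := by
    apply MvPolynomial.algHom_ext
    rintro (⟨i, j⟩ | ⟨i, j⟩)
    · rw [AlgHom.comp_apply, aeval_X, aeval_X, AlgHom.restrictScalars_apply]
      simp only [subs, pt, Sum.elim_inl, map_sum, map_mul, aeval_X, aeval_C, Matrix.mul_apply]
      rfl
    · rw [AlgHom.comp_apply, aeval_X, aeval_X, AlgHom.restrictScalars_apply]
      simp only [subs, pt, Sum.elim_inr, map_sum, map_mul, aeval_X, aeval_C, Matrix.mul_apply]
      rfl
  exact congrArg (fun f : MvPolynomial (Sg n) L →ₐ[L] K => f q) h1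

theorem rho_val {L : Subalgebra ℂ K} {n : ℕ} (X Y : Matrix (Fin n) (Fin n) K) (v : Sg n → ℂ)
    (q : MvPolynomial (Sg n) L) :
    aeval (pt X Y) (aeval (sb (gm L v) (um L v)) q : MvPolynomial (Sg n) L) =
      aeval (pt (X * gm K v) (um K v * Y)) q := by
  have h1 : (aeval (pt X Y) : MvPolynomial (Sg n) L →ₐ[L] K).comp
      (aeval (sb (gm L v) (um L v))) = aeval (pt (X * gm K v) (um K v * Y)) := by
    apply MvPolynomial.algHom_ext
    rintro (⟨i, j⟩ | ⟨i, j⟩)
    · rw [AlgHom.comp_apply, aeval_X, aeval_X]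
      simp only [sb, pt, Sum.elim_inl, map_sum, map_mul, aeval_X, aeval_C, Matrix.mul_apply]
      rfl
    · rw [AlgHom.comp_apply, aeval_X, aeval_X]
      simp only [sb, pt, Sum.elim_inr, map_sum, map_mul, aeval_X, aeval_C, Matrix.mul_apply]
      rfl
  exact congrArg (fun f : MvPolynomial (Sg n) L →ₐ[L] K => f q) h1

/-- **IL-TOR** -/
theorem t_TOR : Pool.Agent.Y377.IL.S_PT → Pool.Agent.Y377.IL.S_PROP →
    Pool.Agent.Y377.IL.S_TOR := by
  intro hPT hPROP K _ _ D hC L hst hinv n X Y M hF I hIB hID ⟨x0, hx0, hx00⟩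
  classical
  by_contra h1I
  have := noeth L hinv
  obtain ⟨e, he1, he2⟩ := exists_polyDer (dres D L hst)
    (vv (fun i j => (⟨M i j, hF.mem i j⟩ : L)))
  obtain ⟨e', he1', he2'⟩ := exists_polyDer (σ := Sg n) D 0
  let Q : Ideal (MvPolynomial (Sg n) L) :=
    { carrier := {q | aeval (pt X Y) q ∈ I}
      add_mem' := fun {a b} ha hb => by
        change aeval (pt X Y) (a + b) ∈ I
        rw [map_add]
        exact I.add_mem ha hb
      zero_mem' := by
        change aeval (pt X Y) (0 : MvPolynomial (Sg n) L) ∈ I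
        rw [map_zero]
        exact I.zero_mem
      smul_mem' := fun c a ha => by
        change aeval (pt X Y) (c * a) ∈ I
        rw [map_mul]
        exact I.smul_mem (⟨_, mem_mat c⟩ : mat L X Y) ha }
  have hQ : ∀ q, q ∈ Q ↔ aeval (pt X Y) q ∈ I := fun q => Iff.rfl
  have hQtop : Q ≠ ⊤ := by
    intro h
    apply h1I
    have h2 : (1 : MvPolynomial (Sg n) L) ∈ Q := by rw [h]; trivial
    rw [hQ, map_one] at h2
    exact h2
  have hQe : ∀ q ∈ Q, e q ∈ Q := by
    intro q hq
    rw [hQ, pi_der hst hF e he1 he2]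
    exact hID _ hq
  set J := Ideal.span ((fun q => aeval (subs X Y) q) '' (Q : Set (MvPolynomial (Sg n) L))) with hJ
  have hJtop : J ≠ (⊤ : Ideal (MvPolynomial (Sg n) K)) := hPROP K L hinv n X Y hF.inv Q hQtop
  have hJe : ∀ f ∈ J, e' f ∈ J := by
    intro f hf
    refine Submodule.span_induction (p := fun f _ => e' f ∈ J) ?_ ?_ ?_ ?_ hf
    · rintro _ ⟨q, hq, rfl⟩
      change e' (aeval (subs X Y) q) ∈ J
      rw [← psi_der hst hF e he1 he2 e' he1' he2']
      exact Ideal.subset_span ⟨e q, hQe q hq, rfl⟩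
    · rw [map_zero]
      exact J.zero_mem
    · intro a b _ _ ha hb
      rw [map_add]
      exact J.add_mem ha hb
    · intro c a ha0 ha
      rw [smul_eq_mul, e'.leibniz]
      exact J.add_mem (J.mul_mem_left _ ha) (J.mul_mem_right _ ha0)
  obtain ⟨v, hv⟩ := hPT K D hC (Sg n) J e' he1' he2' hJe hJtop
  have hval : ∀ q ∈ Q, aeval (pt (X * gm K v) (um K v * Y)) q = 0 := by
    intro q hq
    rw [← psi_val]
    exact hv _ (Ideal.subset_span ⟨q, hq, rfl⟩)
  set gK : Matrix (Fin n) (Fin n) K := gm K v with hgK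
  set uK : Matrix (Fin n) (Fin n) K := um K v with huK
  have hYX : Y * X = 1 := mul_eq_one_comm.1 hF.inv
  have hXguY : (X * gK) * (uK * Y) = 1 := by
    ext i j
    have h1 : (∑ k, MvPolynomial.X (Sum.inl (i, k)) * MvPolynomial.X (Sum.inr (k, j)) -
        C (if i = j then 1 else 0) : MvPolynomial (Sg n) L) ∈ Q := by
      rw [hQ]
      have h2 : aeval (pt X Y) (∑ k, MvPolynomial.X (Sum.inl (i, k)) *
          MvPolynomial.X (Sum.inr (k, j)) - C (if i = j then 1 else 0) :
            MvPolynomial (Sg n) L) = 0 := by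
        simp only [map_sub, map_sum, map_mul, aeval_X, aeval_C, pt, Sum.elim_inl, Sum.elim_inr]
        rw [← Matrix.mul_apply, hF.inv, Matrix.one_apply]
        split_ifs
        · rw [map_one, sub_self]
        · rw [map_zero, sub_self]
      rw [h2]
      exact I.zero_mem
    have h3 := hval _ h1
    simp only [map_sub, map_sum, map_mul, aeval_X, aeval_C, pt, Sum.elim_inl, Sum.elim_inr] at h3
    rw [← Matrix.mul_apply] at h3
    rw [sub_eq_zero.1 h3, Matrix.one_apply]
    split_ifs
    · exact map_one _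
    · exact map_zero _
  have hgu : gK * uK = 1 := by
    have h1 : Y * ((X * gK) * (uK * Y)) * X = 1 := by rw [hXguY, mul_one, hYX]
    have h2 : Y * ((X * gK) * (uK * Y)) * X = (Y * X) * (gK * uK) * (Y * X) := by
      simp only [mul_assoc]
    rw [h2, hYX, one_mul, mul_one] at h1
    exact h1
  set gL : Matrix (Fin n) (Fin n) L := gm L v with hgL
  set uL : Matrix (Fin n) (Fin n) L := um L v with huL
  have hguL : gL * uL = 1 := by
    ext i j
    have h1 := congrFun (congrFun hgu i) j
    rw [Matrix.mul_apply, Matrix.one_apply] at h1 ⊢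
    have h2 : ((∑ k, gL i k * uL k j : L) : K) = ∑ k, gK i k * uK k j := by
      rw [AddSubmonoidClass.coe_finsetSum]
      rfl
    rw [h2, h1]
    split_ifs <;> rfl
  let P : Ideal (MvPolynomial (Sg n) L) :=
    RingHom.ker (aeval (pt X Y) : MvPolynomial (Sg n) L →ₐ[L] K)
  have hP : ∀ q, q ∈ P ↔ aeval (pt X Y) q = 0 := fun q => RingHom.mem_ker
  let ρ : MvPolynomial (Sg n) L →ₐ[L] MvPolynomial (Sg n) L := aeval (sb gL uL)
  let ρ' : MvPolynomial (Sg n) L →ₐ[L] MvPolynomial (Sg n) L := aeval (sb uL gL)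
  have hPQ : P ≤ Q := by
    intro q hq
    rw [hQ, (hP q).1 hq]
    exact I.zero_mem
  have hQP : Q ≤ P.comap (ρ : MvPolynomial (Sg n) L →+* MvPolynomial (Sg n) L) := by
    intro q hq
    rw [Ideal.mem_comap, hP]
    have h1 := hval q hq
    rw [hgK, huK, ← rho_val] at h1
    exact h1
  have h2 : P.comap (ρ : MvPolynomial (Sg n) L →+* MvPolynomial (Sg n) L) ≤ P :=
    comap_le P (ρ : MvPolynomial (Sg n) L →+* MvPolynomial (Sg n) L)
      (ρ' : MvPolynomial (Sg n) L →+* MvPolynomial (Sg n) L)
      (fun x => sb_sb gL uL hguL x) (hPQ.trans hQP)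
  obtain ⟨q0, hq0⟩ := exists_of_mem_mat (hIB x0 hx0)
  have h3 : q0 ∈ Q := by
    rw [hQ, hq0]
    exact hx0
  have h4 := (hP q0).1 (h2 (hQP h3))
  rw [hq0] at h4
  exact hx00 h4

end Pool.Agent.Y77.IL
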